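import Mathlib

namespace Pool.Agent.Results.MP_b44c21_co.Levels

open SimpleGraph Finset

variable {V : Type} [Fintype V] (G : SimpleGraph V)

/-- eccentricity: the largest distance from `v` -/
noncomputable def ecc (v : V) : ℕ := univ.sup (fun u => G.dist v u)

/-- `L(G)`: the largest independence number of a neighbourhood -/
noncomputable def L : ℕ := univ.sup (fun v => (G.induce (G.neighborSet v)).indepNum)

/-- `b(G)`: the largest order of an induced bipartite subgraph -/
noncomputable def b : ℕ :=
  sSup {k | ∃ S : Finset V, (G.induce (S : Set V)).IsBipartite ∧ S.card = k}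

omit [Fintype V] in
lemma level {u w : V} (p : G.Walk w u) : ∀ i ≤ G.dist u w, ∃ x, G.dist u x = i := by
  induction p with
  | @nil u => intro i hi; exact ⟨u, by have := G.dist_self (v := u); omega⟩
  | @cons w w' u h p ih =>
    intro i hi
    by_cases h1 : i ≤ G.dist u w'
    · exact ih i h1
    · have := h.diff_dist_adj (u := u)
      exact ⟨w, by omega⟩

lemma main (hG : G.Connected) (u v : V) :
    (G.induce (G.neighborSet v)).indepNum + 1 +
      ((range (ecc G u + 1)).filter (fun i => i + 1 < G.dist u v ∨ G.dist u v + 1 < i)).card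
      ≤ b G := by
  classical
  have : Nonempty V := ⟨u⟩
  obtain ⟨w, -, hw⟩ := exists_mem_eq_sup univ univ_nonempty (fun y => G.dist u y)
  have hx : ∀ i, ∃ x, i ≤ ecc G u → G.dist u x = i := by
    intro i
    by_cases h : i ≤ ecc G u
    · obtain ⟨p⟩ := hG.preconnected w u
      obtain ⟨x, hx⟩ := level G p i (by rw [← hw]; exact h)
      exact ⟨x, fun _ => hx⟩
    · exact ⟨u, fun h' => absurd h' h⟩
  choose x hx using hx
  obtain ⟨I0, hI0⟩ := (G.induce (G.neighborSet v)).exists_isNIndepSet_indepNum
  set J := (range (ecc G u + 1)).filter (fun i => i + 1 < G.dist u v ∨ G.dist u v + 1 < i)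
    with hJ
  have hJx : ∀ i ∈ J, G.dist u (x i) = i ∧ (i + 1 < G.dist u v ∨ G.dist u v + 1 < i) := by
    intro i hi
    rw [hJ, mem_filter, mem_range] at hi
    exact ⟨hx i (by omega), hi.2⟩
  let I : Finset V := I0.map (Function.Embedding.subtype _)
  have hI : ∀ a ∈ I, G.Adj v a := by
    intro a ha
    obtain ⟨a', -, rfl⟩ := mem_map.1 ha
    exact a'.2
  have hII : ∀ a ∈ I, ∀ c ∈ I, ¬ G.Adj a c := by
    intro a ha c hc hac
    obtain ⟨a', ha', rfl⟩ := mem_map.1 ha
    obtain ⟨c', hc', rfl⟩ := mem_map.1 hc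
    exact hI0.isIndepSet (mem_coe.2 ha') (mem_coe.2 hc') (fun h => hac.ne (by rw [h])) hac
  have hvI : v ∉ I := fun h => (hI v h).ne rfl
  have hd : ∀ a c, G.Adj a c → G.dist u a ≤ G.dist u c + 1 ∧ G.dist u c ≤ G.dist u a + 1 := by
    intro a c h
    have := h.diff_dist_adj (u := u)
    omega
  apply le_csSup ⟨Fintype.card V, by rintro k ⟨S, -, rfl⟩; exact card_le_univ S⟩
  refine ⟨insert v I ∪ J.image x, ?_, ?_⟩
  · let c : V → ℕ := fun y => if y ∈ I then 1 else (G.dist u y + G.dist u v) % 2
    have hc : ∀ y, c y < 2 := fun y => by simp only [c]; split_ifs <;> omega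
    have cases : ∀ y ∈ insert v I ∪ J.image x, y ∈ I ∨ y = v ∨ ∃ i ∈ J, x i = y := by
      intro y hy
      simp only [mem_union, mem_insert, mem_image] at hy
      tauto
    refine ⟨Coloring.mk (fun y => ⟨c y.1, hc _⟩) ?_⟩
    rintro ⟨y, hy⟩ ⟨z, hz⟩ hyz
    have hyz' : G.Adj y z := hyz
    have d := hd y z hyz'
    simp only [ne_eq, Fin.mk.injEq, c]
    have hne := hyz'.ne
    by_cases y1 : y ∈ I <;> by_cases z1 : z ∈ I
    · exact absurd hyz' (hII y y1 z z1)
    · rw [if_pos y1, if_neg z1]
      have := hd v y (hI y y1)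
      rcases cases z (mem_coe.1 hz) with h | rfl | ⟨i, hi, rfl⟩
      · exact absurd h z1
      · omega
      · have := hJx i hi
        omega
    · rw [if_neg y1, if_pos z1]
      have := hd v z (hI z z1)
      rcases cases y (mem_coe.1 hy) with h | rfl | ⟨i, hi, rfl⟩
      · exact absurd h y1
      · omega
      · have := hJx i hi
        omega
    · rw [if_neg y1, if_neg z1]
      rcases cases y (mem_coe.1 hy) with h | rfl | ⟨i, hi, rfl⟩
      · exact absurd h y1
      · rcases cases z (mem_coe.1 hz) with h | rfl | ⟨j, hj, rfl⟩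
        · exact absurd h z1
        · exact absurd rfl hne
        · have := hJx j hj
          omega
      · have := hJx i hi
        rcases cases z (mem_coe.1 hz) with h | rfl | ⟨j, hj, rfl⟩
        · exact absurd h z1
        · omega
        · have := hJx j hj
          have : i ≠ j := fun h => hne (by rw [h])
          omega
  · rw [card_union_of_disjoint, card_insert_of_notMem hvI, card_map, hI0.card_eq,
      card_image_of_injOn]
    · intro i hi j hj h
      rw [← (hJx i hi).1, ← (hJx j hj).1, h]
    · rw [disjoint_right]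
      intro y hy hy'
      obtain ⟨i, hi, rfl⟩ := mem_image.1 hy
      have := hJx i hi
      rcases mem_insert.1 hy' with h | h
      · rw [h] at this; omega
      · have := hd v _ (hI _ h)
        omega

lemma cnt (e k : ℕ) (T : Finset ℕ) (hT : ∀ i, ¬ (i + 1 < k ∨ k + 1 < i) → i ∈ T) :
    e + 1 ≤ ((range (e + 1)).filter (fun i => i + 1 < k ∨ k + 1 < i)).card + T.card := by
  have h1 := card_filter_add_card_filter_not (s := range (e + 1))
    (fun i => i + 1 < k ∨ k + 1 < i)
  have h2 : ((range (e + 1)).filter (fun i => ¬ (i + 1 < k ∨ k + 1 < i))).card ≤ T.card :=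
    card_le_card fun i hi => hT i (mem_filter.1 hi).2
  rw [card_range] at h1
  omega

theorem result {V : Type} [Fintype V] (G : SimpleGraph V) (hG : G.Connected) :
    ⌊(∑ v, (ecc G v : ℚ)) / (Fintype.card V : ℚ) + (L G : ℚ)⌋ ≤ (b G : ℤ) := by
  have : Nonempty V := hG.nonempty
  obtain ⟨v, -, hv⟩ := exists_mem_eq_sup univ univ_nonempty
    (fun v => (G.induce (G.neighborSet v)).indepNum)
  have hL : L G = (G.induce (G.neighborSet v)).indepNum := hv
  have hn : (0 : ℚ) < Fintype.card V := by exact_mod_cast Fintype.card_pos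
  have h1 : ecc G v + L G ≤ b G := by
    have := main G hG v v
    have h2 := cnt (ecc G v) (G.dist v v) {0, 1} (by intro i; simp; omega)
    have : ({0, 1} : Finset ℕ).card = 2 := rfl
    omega
  have h2 : ∀ u, ecc G u + L G ≤ b G + 1 := by
    intro u
    have := main G hG u v
    have h2 := cnt (ecc G u) (G.dist u v) {G.dist u v - 1, G.dist u v, G.dist u v + 1}
      (by intro i; simp; omega)
    have : ({G.dist u v - 1, G.dist u v, G.dist u v + 1} : Finset ℕ).card ≤ 3 := card_le_three
    omega
  rw [← Int.lt_add_one_iff, Int.floor_lt, ← lt_sub_iff_add_lt, div_lt_iff₀ hn]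
  have : ∑ u, (ecc G u : ℚ) < ∑ _u : V, ((b G : ℚ) + 1 - L G) := by
    apply sum_lt_sum
    · intro u _
      have : ((ecc G u + L G : ℕ) : ℚ) ≤ (b G + 1 : ℕ) := by exact_mod_cast h2 u
      push_cast at this
      linarith
    · refine ⟨v, mem_univ _, ?_⟩
      have : ((ecc G v + L G : ℕ) : ℚ) ≤ (b G : ℕ) := by exact_mod_cast h1
      push_cast at this
      linarith
  rw [sum_const, card_univ, nsmul_eq_mul] at this
  push_cast
  linarith

end Pool.Agent.Results.MP_b44c21_co.Levels
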